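import Mathlib
import Pool.Agent.Run7.h337.MK.And

/-!
# Andrica's inequality for primes with many prime neighbours, almost all n
-/

set_option autoImplicit false

namespace Pool.Agent.Results.MP_82fd4a_nt.AndricaWithNeighbours

open Finset
open Pool.Agent.N384.MQ (Flat)
open Run7.h337.MK (goodPrimes)

theorem result (r T U : ℕ) (ε : ℝ) (hε : 0 < ε) (hε1 : ε ≤ 1 / 2) :
    ∃ V C D X₀ : ℕ, ∀ X : ℕ, X₀ ≤ X →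
    ∃ E : Finset ℕ, (E.card : ℝ) ≤ X / Real.log X ^ U ∧ ∀ n : ℕ, 1 ≤ n → n ≤ X → n ∉ E →
    ∀ (q : Fin r → ℕ) [∀ j, NeZero (q j)],
    (∀ j, (X : ℝ) ^ (2 / 3 : ℝ) * Real.log X ^ C ≤ q j ∧ (q j : ℝ) * Real.log X ^ D ≤ X) →
    ∀ {ι : Fin r → Type} (s : ∀ j, Finset (ι j)) (y : ∀ j, ι j → ZMod (q j)),
    (∀ j, (s j).Nonempty ∧ Flat (q j) (1 / Real.log X ^ V) (s j) (y j)) →
    ∀ κ : Fin r → ℤ, (∀ j, κ j ≠ 0 ∧ ((κ j).natAbs : ℝ) ≤ Real.log X ^ T) →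
    (∀ α β : ℝ, (n : ℝ) ≤ α → β ≤ n + 1 → α + 1 / Real.log X ^ T ≤ β →
      |((((goodPrimes X ε (n ^ 2) ((n + 1) ^ 2) κ y s).filter fun p : ℕ => α < √(p : ℝ) ∧ √(p : ℝ) < β).card : ℕ) : ℝ) -
        (β ^ 2 - α ^ 2) / (2 * Real.log X)| ≤ ε * ((β ^ 2 - α ^ 2) / (2 * Real.log X))) ∧
    (∀ p ∈ goodPrimes X ε (n ^ 2) ((n + 1) ^ 2) κ y s, ∀ p' ∈ goodPrimes X ε (n ^ 2) ((n + 1) ^ 2) κ y s, p < p' →
      (∀ p'' ∈ goodPrimes X ε (n ^ 2) ((n + 1) ^ 2) κ y s, ¬ (p < p'' ∧ p'' < p')) →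
      √(p' : ℝ) - √(p : ℝ) < 1 / Real.log X ^ T) :=
  Run7.h337.MK.andrica r T U ε hε hε1

end Pool.Agent.Results.MP_82fd4a_nt.AndricaWithNeighbours
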