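import Pool.Agent.Run7.h946.SQ.Win

/-!
# The inequality of Andrica for consecutive primes of Bohr sets

`1, α_1, …, α_r` are linearly independent over `ℚ`; for a box `B` modulo one let `P(B)` be the set of the primes `p` with
`α p ∈ B`. There is one thin set `F` (at most `X / (log X)^A` elements up to `X`, for every `A`) such that for all `κ, δ > 0`
all the large real numbers `x` with `⌊x⌋ ∉ F` lie between consecutive elements `p ≤ x < q` of `P(B)`, for ALL the boxes of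
volume at least `δ`, with `q - p ≤ x^(1/3 + κ)` and `√q - √p ≤ x^(-1/6 + κ)`. In particular Andrica's inequality, and
much more, holds for the pairs of consecutive elements `p < q` of all these sets of primes with `p ∉ F`.
-/

set_option autoImplicit false
set_option maxHeartbeats 4000000

namespace Pool.Agent.Results.MP_82fd4a_nt.BohrPrimes

open Finset Filter Topology
open Run7.h946.SQ (Bohr Independent IsThin Consecutive SmallGaps)

/-- **Theorem.** -/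
theorem result {r : ℕ} (α : Fin r → ℝ) (hα : Independent α) : ∃ F : Set ℕ, IsThin F ∧
    ∀ κ δ : ℝ, 0 < κ → 0 < δ → ∃ x₀ : ℕ,
      (∀ x : ℝ, (x₀ : ℝ) ≤ x → ⌊x⌋₊ ∉ F → SmallGaps α κ δ x) ∧
      (∀ u v : Fin r → ℝ, (∀ j, u j ≤ v j) → (∀ j, v j ≤ u j + 1) → δ ≤ ∏ j, (v j - u j) →
        ∀ p q : ℕ, x₀ ≤ p → p ∉ F → Consecutive α u v p q →
          (q : ℝ) - p ≤ (p : ℝ) ^ (1 / 3 + κ) ∧ √(q : ℝ) - √(p : ℝ) ≤ (p : ℝ) ^ (-(1 / 6) + κ) ∧
          (κ ≤ 1 / 6 → √(q : ℝ) - √(p : ℝ) < 1)) := by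
  obtain ⟨F, hF, h⟩ := Run7.h946.SQ.exceptional_close hα
  refine ⟨F, hF, fun κ δ hκ hδ => ?_⟩
  obtain ⟨x₀, h1⟩ := h (κ / 2) δ (by positivity) hδ
  obtain ⟨x₁, h2⟩ := Run7.h946.SQ.two_le_pow κ hκ
  have key : ∀ x : ℝ, ((x₀ + x₁ + 2 : ℕ) : ℝ) ≤ x → ⌊x⌋₊ ∉ F → SmallGaps α κ δ x := by
    intro x hx hxF
    have hxm : x₀ + x₁ + 2 ≤ ⌊x⌋₊ := Nat.le_floor hx
    obtain ⟨g1, g2⟩ := h2 ⌊x⌋₊ (by omega)
    exact (h1 _ (by omega) hxF).smallGaps hκ g1 g2 x rfl
  refine ⟨x₀ + x₁ + 2, key, fun u v hu hv hvol p q hp hpF hc => ?_⟩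
  have h3 := (key p (by exact_mod_cast hp) (by rwa [Nat.floor_natCast]) u v hu hv hvol).2 p q hc le_rfl
    (by exact_mod_cast hc.1)
  refine ⟨h3.1, h3.2, fun hκ6 => ?_⟩
  have hp2 : (1 : ℝ) < p := by exact_mod_cast (by omega : 1 < p)
  rcases eq_or_lt_of_le hκ6 with h4 | h4
  · -- the exponent is zero: use a smaller `κ`
    have h5 := h3.2
    rw [h4, show (-(1 / 6 : ℝ) + 1 / 6) = 0 by norm_num, Real.rpow_zero] at h5
    refine lt_of_le_of_ne h5 ?_
    intro h6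
    -- `√q = √p + 1` gives `q = p + 2 √p + 1`, so `4 p` is a square of an integer
    have hq2 : √(q : ℝ) * √(q : ℝ) = q := Real.mul_self_sqrt (Nat.cast_nonneg _)
    have hpp : √(p : ℝ) * √(p : ℝ) = p := Real.mul_self_sqrt (Nat.cast_nonneg _)
    have h7 : √(q : ℝ) = √(p : ℝ) + 1 := by linarith
    have h8 : (q : ℝ) = p + 2 * √(p : ℝ) + 1 := by
      calc (q : ℝ) = √(q : ℝ) * √(q : ℝ) := hq2.symm
        _ = (√(p : ℝ) + 1) * (√(p : ℝ) + 1) := by rw [h7]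
        _ = √(p : ℝ) * √(p : ℝ) + 2 * √(p : ℝ) + 1 := by ring
        _ = p + 2 * √(p : ℝ) + 1 := by rw [hpp]
    have h9 : Irrational √(p : ℝ) := hc.2.1.1.irrational_sqrt
    apply h9
    refine ⟨((q : ℚ) - p - 1) / 2, ?_⟩
    push_cast
    linarith
  · refine lt_of_le_of_lt h3.2 ?_
    exact Real.rpow_lt_one_of_one_lt_of_neg hp2 (by linarith)

end Pool.Agent.Results.MP_82fd4a_nt.BohrPrimes
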