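import Mathlib
import Pool.Agent.Run7.h794.MK.All
import Pool.Agent.Run7.h591.EG.Fin4

set_option autoImplicit false
set_option maxHeartbeats 4000000

namespace Pool.Agent.Results.MP_82fd4a_nt.MixingGaps

open Finset MeasureTheory Filter Topology
open Pool.Agent.Run7.h591.EG

theorem result {X : Type*} [MeasurableSpace X] (μ : Measure X) [IsProbabilityMeasure μ] (T : X → X)
    (hT : MeasurePreserving T μ μ)
    (hW : ∀ A B : Set X, MeasurableSet A → MeasurableSet B →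
      Tendsto (fun K : ℕ => (∑ k ∈ range K, |μ.real (A ∩ T^[k] ⁻¹' B) - μ.real A * μ.real B|) / K) atTop (𝓝 0))
    {ι : Type*} (s : Finset ι) (A B : ι → Set X) (hA : ∀ i ∈ s, MeasurableSet (A i)) (hB : ∀ i ∈ s, MeasurableSet (B i))
    (ε : ℝ) (hε : 0 < ε) :
    ∀ C : ℕ, ∃ Y₀ : ℕ, ∀ Y : ℕ, Y₀ ≤ Y → ∃ Bad : Finset ℕ, Bad ⊆ Ioc Y (2 * Y) ∧
      (Bad.card : ℝ) ≤ Y / Real.log Y ^ C ∧ ∀ m ∈ Ioc Y (2 * Y), m ∉ Bad →
        ∃ p : ℕ, p.Prime ∧ m < p ∧ √(p : ℝ) - √(m : ℝ) < 1 / Real.log Y ^ C ∧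
          ∀ i ∈ s, |μ.real (A i ∩ T^[p] ⁻¹' (B i)) - μ.real (A i) * μ.real (B i)| < ε := by
  classical
  have hWM : WMix T μ := hW
  set δ : ℝ := min ε (1 / (8 * ((s.card : ℝ) + 1))) with hδd
  have hδ : 0 < δ := lt_min hε (by positivity)
  have h1 : ∀ i ∈ s, AW (fun _ n a b => Real.log n *
      (((pr a b).filter (fun p => δ ≤ |μ.real (A i ∩ T^[p] ⁻¹' (B i)) - μ.real (A i) * μ.real (B i)|)).card : ℝ) ≤
        δ * ((b : ℝ) - a)) := fun i hi =>
    wmix Pool.Agent.Run7.h794.MK.all_all hT hWM (hA i hi) (hB i hi) δ hδ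
  have h2 := AW_fin s _ h1
  refine gap _ (ex_of_few Pool.Agent.Run7.h794.MK.all_all _ ?_)
  refine AW_mono (AW_and h2 (AW_win 0)) 0 ?_
  rintro N n a b - - - hab ⟨e1, _, _, _, _, _, hD⟩
  have hlog : 0 ≤ Real.log n := Real.log_natCast_nonneg n
  have h3 : ((pr a b).filter (fun p => ¬ ∀ i ∈ s, |μ.real (A i ∩ T^[p] ⁻¹' (B i)) - μ.real (A i) * μ.real (B i)| < ε)) ⊆
      s.biUnion (fun i => (pr a b).filter
        (fun p => δ ≤ |μ.real (A i ∩ T^[p] ⁻¹' (B i)) - μ.real (A i) * μ.real (B i)|)) := by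
    intro p hp
    rw [mem_filter] at hp
    obtain ⟨hp1, hp2⟩ := hp
    push Not at hp2
    obtain ⟨i, hi, hi2⟩ := hp2
    rw [mem_biUnion]
    exact ⟨i, hi, mem_filter.2 ⟨hp1, (min_le_left _ _).trans hi2⟩⟩
  have h4 := (card_le_card h3).trans card_biUnion_le
  have h5 : (((pr a b).filter (fun p => ¬ ∀ i ∈ s, |μ.real (A i ∩ T^[p] ⁻¹' (B i)) - μ.real (A i) * μ.real (B i)| < ε)).card : ℝ) ≤
      ∑ i ∈ s, (((pr a b).filter (fun p => δ ≤ |μ.real (A i ∩ T^[p] ⁻¹' (B i)) - μ.real (A i) * μ.real (B i)|)).card : ℝ) := by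
    exact_mod_cast h4
  calc _ ≤ Real.log n * ∑ i ∈ s, (((pr a b).filter (fun p => δ ≤ |μ.real (A i ∩ T^[p] ⁻¹' (B i)) - μ.real (A i) * μ.real (B i)|)).card : ℝ) := by
        gcongr
    _ = ∑ i ∈ s, Real.log n * (((pr a b).filter (fun p => δ ≤ |μ.real (A i ∩ T^[p] ⁻¹' (B i)) - μ.real (A i) * μ.real (B i)|)).card : ℝ) :=
        mul_sum _ _ _
    _ ≤ ∑ i ∈ s, δ * ((b : ℝ) - a) := sum_le_sum e1
    _ = s.card * δ * ((b : ℝ) - a) := by rw [sum_const, nsmul_eq_mul]; ring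
    _ ≤ 1 / 8 * ((b : ℝ) - a) := by
        apply mul_le_mul_of_nonneg_right _ hD.le
        calc (s.card : ℝ) * δ ≤ s.card * (1 / (8 * ((s.card : ℝ) + 1))) := by
              gcongr
              exact min_le_right _ _
          _ = 1 / 8 * (s.card / (s.card + 1)) := by field_simp
          _ ≤ 1 / 8 * 1 := by
              gcongr
              rw [div_le_one (by positivity)]
              linarith
          _ = 1 / 8 := mul_one _

end Pool.Agent.Results.MP_82fd4a_nt.MixingGaps
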