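import Pool.Agent.Run7.h994.MC.RSf

/-!
# `k` consecutive small Andrica differences near every real arithmetic progression

For every `k` and `ε > 0` there is `D` such that for every real `λ > 0` there is `c > 0` with the following property for all large
`M`, all `α ∈ [0, 1]` and all `κ` with `M^(-1/2 + ε) ≤ κ ≤ 1`: for at least `c M` of the `m ≤ M` there are at least `c κ M / (log M)^D`
primes `p_i` with `λ (m + α) < √p_i`, `√p_(i+k) ≤ λ (m + α) + κ` and `√p_(i+k) - √p_i ≤ D / (2 √p_i)`. So after a positive proportion
of the points of every real arithmetic progression there are, at the distance `m^(-1/2 + ε)`, runs of `k` consecutive Andrica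
differences whose sum is `O(1 / √p)`; everything is uniform in the phase `α`.

Method. The Maynard-Tao theorem (in the form with the right order of magnitude, project HR of the starting tree) in an
arbitrary set `T` of relative density `κ → 0` in which the integers and the primes are equidistributed in residue classes up to a
small power level; here `T` is the set of the integers `v` for which the fractional part of `√v / λ - α` is less than `κ`: exponential
sums over primes in residue classes with the phases `h √p / λ` on average over `h` (Vaughan's identity, double large sieve, van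
der Corput) with a power saving. The clusters found consist of integers free of small prime factors; the upper bound sieve shows that no
`m` has too many of them.
-/

set_option autoImplicit false

namespace Pool.Agent.Results.MP_82fd4a_nt.RunsNearProgressions

open Finset

/-- the `i`-th prime (`i = 0, 1, ...`) -/
noncomputable def p (i : ℕ) : ℕ := Nat.nth Nat.Prime i

open Classical in
/-- the indices `i` with `y < √p_i`, `√p_(i+k) ≤ y + κ` and `√p_(i+k) - √p_i ≤ D / (2 √p_i)`. (The bound for `i` is no restriction:
`i < p_i ≤ (y + κ)^2`.) -/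
noncomputable def runs (k D : ℕ) (κ y : ℝ) : Finset ℕ :=
  (range (⌊(y + κ) ^ 2⌋₊ + 1)).filter (fun i : ℕ => y < √(p i : ℝ) ∧ √(p (i + k) : ℝ) ≤ y + κ ∧
    √(p (i + k) : ℝ) - √(p i : ℝ) ≤ D / (2 * √(p i : ℝ)))

theorem result (k : ℕ) (ε : ℝ) (hε : 0 < ε) : ∃ D : ℕ, ∀ l : ℝ, 0 < l → ∃ c : ℝ, 0 < c ∧ ∃ M₀ : ℕ, ∀ M : ℕ, M₀ ≤ M →
    ∀ α : ℝ, 0 ≤ α → α ≤ 1 → ∀ κ : ℝ, (M : ℝ) ^ (-1 / 2 + ε) ≤ κ → κ ≤ 1 →
      c * M ≤ (#((Icc 1 M).filter (fun m : ℕ => c * (κ * M / Real.log M ^ D) ≤ (#(runs k D κ (l * (m + α))) : ℝ))) : ℝ) := by
  obtain ⟨D, hD, H⟩ := Run7.h994.MC.sq_runs k ε hε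
  exact ⟨D, H⟩

end Pool.Agent.Results.MP_82fd4a_nt.RunsNearProgressions
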